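import Pool.Agent.Lib_MP_d91c53_tp.Final

/-!
# Levine's hat game: `V_2 ≤ 137/384` and `V_n ≤ (41 n + 55) / (137 n + 55)`

The signs of the hats named by two players have correlation at most `41/96`.
-/

set_option autoImplicit false

namespace Pool.Agent.Results.MP_d91c53_co.PairCorrelation

theorem result (n k : ℕ) (hn : 2 ≤ n) (s : Fin n → (Fin n → Fin k → Bool) → Fin k)
    (hs : ∀ i : Fin n, ∀ x y : Fin n → Fin k → Bool,
      (∀ j : Fin n, j ≠ i → x j = y j) → s i x = s i y) :
    ((Finset.univ.filter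
        (fun x : Fin n → Fin k → Bool => ∀ i : Fin n, x i (s i x) = true)).card : ℝ)
      ≤ min (137 / 384 : ℝ) ((41 * (n : ℝ) + 55) / (137 * (n : ℝ) + 55)) * (2 : ℝ) ^ (n * k) :=
  Pool.Agent.TP.main_bound n k hn s hs

end Pool.Agent.Results.MP_d91c53_co.PairCorrelation
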