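import Pool.Agent.Lib_MP_d91c53_ps.Final

/-!
# Levine's hat game: what the players have to see of each other's stacks

`R` is a group of `m` of the `n` players. Every player of the group sees the stacks outside the
group. `F i j` says that player `i` sees the stack of player `j` in full; otherwise `i` learns of
the stack of `j` only the value of a function `g i j` with `r i j` values, which depends on the
pair (it may also depend on the stacks outside the group). `δ` is the density of the pairs with
`F i j` and `F j i`, `ε` the density of the pairs with exactly one of the two, and `B` the average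
of `log (r i j)` (over all `m ^ 2` pairs, the pairs with `F i j` and those with `i = j` counting
`0`). If `v` bounds the value of the game of two players with stacks of the same height, then all
players of the group name black hats with probability at most
`c δ / (1 + c δ) + 3 √(ε (1 + B) / log m) + 10 (1 + B) / log m`, where `c = 4 v - 1`.
-/

set_option autoImplicit false

namespace Pool.Agent.Results.MP_d91c53_co.PairSignals

open Finset

theorem result (n k : ℕ) (v : ℝ)
    (hv : ∀ f f' : (Fin k → Bool) → Fin k,
      ((univ.filter fun p : (Fin k → Bool) × (Fin k → Bool) =>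
        p.1 (f p.2) = true ∧ p.2 (f' p.1) = true).card : ℝ) ≤ v * 4 ^ k)
    (R : Finset (Fin n)) (hR : 2 ≤ R.card)
    (F : Fin n → Fin n → Prop) [DecidableRel F]
    (r : Fin n → Fin n → ℕ)
    (g : ∀ i j : Fin n, (Fin n → Fin k → Bool) → Fin (r i j))
    (hg : ∀ i ∈ R, ∀ j ∈ R, ∀ x y : Fin n → Fin k → Bool,
      (∀ l, l ∉ R → x l = y l) → x j = y j → g i j x = g i j y)
    (s : Fin n → (Fin n → Fin k → Bool) → Fin k)
    (hs : ∀ i ∈ R, ∀ x y : Fin n → Fin k → Bool,
      (∀ l, l ∉ R → x l = y l) →
      (∀ j ∈ R, j ≠ i → F i j → x j = y j) →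
      (∀ j ∈ R, j ≠ i → ¬ F i j → g i j x = g i j y) → s i x = s i y)
    (δ ε B : ℝ)
    (hδ : δ = (((R ×ˢ R).filter fun p => p.1 ≠ p.2 ∧ F p.1 p.2 ∧ F p.2 p.1).card : ℝ) /
      (R.card : ℝ) ^ 2)
    (hε : ε = (((R ×ˢ R).filter fun p => ¬ (F p.1 p.2 ↔ F p.2 p.1)).card : ℝ) /
      (R.card : ℝ) ^ 2)
    (hB : B = (∑ p ∈ (R ×ˢ R).filter fun p => p.1 ≠ p.2 ∧ ¬ F p.1 p.2,
      Real.log (r p.1 p.2)) / (R.card : ℝ) ^ 2) :
    ((univ.filter fun x : Fin n → Fin k → Bool => ∀ i ∈ R, x i (s i x) = true).card : ℝ) ≤
      ((4 * v - 1) * δ / (1 + (4 * v - 1) * δ) +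
        3 * Real.sqrt (ε * ((1 + B) / Real.log R.card)) +
        10 * ((1 + B) / Real.log R.card)) * 2 ^ (n * k) :=
  Pool.Agent.PS.main_bound n k v hv R hR F r g hg s hs δ ε B hδ hε hB

end Pool.Agent.Results.MP_d91c53_co.PairSignals
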