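import Pool.Agent.Lib_MP_d91c53_ss.Short
import Pool.Agent.Lib_MP_d91c53_ss.Ent

/-!
# Levine's hat game with short stacks

Stacks of `K` hats. `R` is a group of the `n` players, every player `i` of the group has a set
`H i` of exactly `k` hats of the own stack (it may depend on the stacks outside the group).
Whatever the strategies are, for every `j ≤ k` the probability that all players of the group name
black hats and name them in their sets `H i` is at most
`j / k + (1 - (C(k,0) + ... + C(k,j)) / 2 ^ k) ^ #R`.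

Consequences for all `n` players and stacks of `k` hats: the value is at most `β` for large `n` if
`k ≤ C log₂ n` and the binary entropy of `β` is larger than `1 - 1 / C`, and it is at most
`C_A / log n` if `2 ^ k ≤ n (log n) ^ A`.
-/

set_option autoImplicit false

namespace Pool.Agent.Results.MP_d91c53_co.ShortStacks

open Finset Pool.Agent.ShortStacks

theorem general (n K k j : ℕ) (hk : 1 ≤ k) (R : Finset (Fin n))
    (H : Fin n → (Fin n → Fin K → Bool) → Finset (Fin K))
    (s : Fin n → (Fin n → Fin K → Bool) → Fin K)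
    (hH : ∀ i ∈ R, ∀ x, (H i x).card = k)
    (hHo : ∀ i ∈ R, ∀ x y : Fin n → Fin K → Bool, (∀ l, l ∉ R → x l = y l) → H i x = H i y)
    (hs : ∀ i ∈ R, ∀ x y : Fin n → Fin K → Bool, (∀ l, l ≠ i → x l = y l) → s i x = s i y) :
    ((univ.filter fun x : Fin n → Fin K → Bool =>
        ∀ i ∈ R, s i x ∈ H i x ∧ x i (s i x) = true).card : ℝ) ≤
      (j / k + (1 - (∑ i ∈ range (j + 1), (k.choose i : ℝ)) / 2 ^ k) ^ R.card) *
        2 ^ (n * K) := by
  classical
  set p : Fin n → Prop := fun i => i ∈ R with hp
  set e := Equiv.piEquivPiSubtypeProd p (fun _ => Fin K → Bool) with he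
  set glue : ({i // p i} → Fin K → Bool) → ({i // ¬ p i} → Fin K → Bool) →
    Fin n → Fin K → Bool := fun u y => e.symm (u, y) with hglue
  have hin : ∀ u y (i : {i // p i}), glue u y i.1 = u i := by
    intro u y i
    simp only [hglue, he, Equiv.piEquivPiSubtypeProd_symm_apply]
    rw [dif_pos i.2]
  have hout : ∀ u y i (hi : ¬ p i), glue u y i = y ⟨i, hi⟩ := by
    intro u y i hi
    simp only [hglue, he, Equiv.piEquivPiSubtypeProd_symm_apply]
    rw [dif_neg hi]
  have houte : ∀ u u' y i, i ∉ R → glue u y i = glue u' y i := by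
    intro u u' y i hi
    rw [hout u y i hi, hout u' y i hi]
  have hcard : Fintype.card {i // p i} = R.card := Fintype.card_coe R
  have hk0 : (0 : ℝ) < k := by exact_mod_cast hk
  set v : ℝ := ∑ i ∈ range (j + 1), (k.choose i : ℝ) with hv
  set bd : ℝ := j / k + (1 - v / 2 ^ k) ^ R.card with hbd
  set W := univ.filter fun x : Fin n → Fin K → Bool =>
    ∀ i ∈ R, s i x ∈ H i x ∧ x i (s i x) = true with hW
  -- one position outside the group
  have hone : ∀ y : {i // ¬ p i} → Fin K → Bool,
      ((univ.filter fun u : {i // p i} → Fin K → Bool => glue u y ∈ W).card : ℝ) ≤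
        bd * (2 ^ K) ^ R.card := by
    intro y
    set H' : {i // p i} → Finset (Fin K) := fun i => H i.1 (glue (fun _ _ => true) y) with hH'
    have hHH : ∀ u (i : {i // p i}), H i.1 (glue u y) = H' i := by
      intro u i
      exact hHo i.1 i.2 _ _ fun l hl => houte _ _ y l hl
    have h5 := group k j H' (fun i => hH i.1 i.2 _) (fun i u => s i.1 (glue u y)) (by
      intro i u a
      refine hs i.1 i.2 _ _ fun l hl => ?_
      by_cases hlR : l ∈ R
      · have h1 := hin (Function.update u i a) y ⟨l, hlR⟩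
        have h2 := hin u y ⟨l, hlR⟩
        simp only at h1 h2
        rw [h1, h2, Function.update_of_ne]
        intro hc
        exact hl (congrArg Subtype.val hc)
      · exact houte _ _ y l hlR)
    rw [hcard] at h5
    have hcount : (univ.filter fun u : {i // p i} → Fin K → Bool => glue u y ∈ W).card =
        (univ.filter fun u : {i // p i} → Fin K → Bool =>
          ∀ i, s i.1 (glue u y) ∈ H' i ∧ u i (s i.1 (glue u y)) = true).card := by
      congr 1
      ext u
      simp only [Finset.mem_filter, Finset.mem_univ, true_and, hW]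
      constructor
      · intro h i
        have h6 := h i.1 i.2
        rw [hHH, hin] at h6
        exact h6
      · intro h i hi
        have h6 := h ⟨i, hi⟩
        have h7 := hin u y ⟨i, hi⟩
        have h8 := hHH u ⟨i, hi⟩
        simp only at h7 h8
        rw [h7, h8]
        exact h6
    rw [hcount]
    have hball : ∀ i : {i // p i},
        ((univ.filter fun z : Fin K → Bool => ¬ blk (H' i) z ≤ j).card : ℝ) =
          2 ^ K * (1 - v / 2 ^ k) := by
      intro i
      have h1 := card_ball (H' i) j
      rw [hH i.1 i.2 _] at h1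
      have h2 : (2 : ℝ) ^ k * ((univ.filter fun z : Fin K → Bool => blk (H' i) z ≤ j).card : ℝ) =
          2 ^ K * v := by
        rw [hv]
        exact_mod_cast h1
      have h3 : ((univ.filter fun z : Fin K → Bool => blk (H' i) z ≤ j).card : ℝ) +
          ((univ.filter fun z : Fin K → Bool => ¬ blk (H' i) z ≤ j).card : ℝ) = 2 ^ K := by
        have h4 := Finset.card_filter_add_card_filter_not (s := (univ : Finset (Fin K → Bool)))
          (fun z => blk (H' i) z ≤ j)
        rw [Finset.card_univ, Fintype.card_fun, Fintype.card_bool, Fintype.card_fin] at h4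
        exact_mod_cast h4
      have h4 : ((univ.filter fun z : Fin K → Bool => blk (H' i) z ≤ j).card : ℝ) =
          2 ^ K * v / 2 ^ k := by
        rw [eq_div_iff (by positivity)]
        linarith
      rw [h4] at h3
      have h6 : (2 : ℝ) ^ K * (1 - v / 2 ^ k) = 2 ^ K - 2 ^ K * v / 2 ^ k := by ring
      linarith
    have h6 : (k : ℝ) * ((univ.filter fun u : {i // p i} → Fin K → Bool =>
        ∀ i, s i.1 (glue u y) ∈ H' i ∧ u i (s i.1 (glue u y)) = true).card : ℝ) ≤
        j * (2 ^ K) ^ R.card + k * ∏ i : {i // p i},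
          ((univ.filter fun z : Fin K → Bool => ¬ blk (H' i) z ≤ j).card : ℝ) := by
      exact_mod_cast h5
    rw [Finset.prod_congr rfl fun i _ => hball i, Finset.prod_const, Finset.card_univ, hcard,
      mul_pow] at h6
    refine le_of_mul_le_mul_left ?_ hk0
    refine h6.trans (le_of_eq ?_)
    rw [hbd]
    field_simp
  -- sum over the positions outside the group
  have hsum : W.card = ∑ y : {i // ¬ p i} → Fin K → Bool,
      (univ.filter fun u : {i // p i} → Fin K → Bool => glue u y ∈ W).card := by
    have h1 := Finset.card_eq_sum_card_fiberwise (s := W)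
      (t := (univ : Finset ({i // ¬ p i} → Fin K → Bool))) (f := fun x => (e x).2)
      (fun _ _ => Finset.mem_univ _)
    rw [h1]
    refine Finset.sum_congr rfl fun y _ => ?_
    symm
    refine Finset.card_bij' (fun u _ => glue u y) (fun x _ => (e x).1) ?_ ?_ ?_ ?_
    · intro u hu
      rw [Finset.mem_filter] at hu ⊢
      refine ⟨hu.2, ?_⟩
      simp only [hglue, Equiv.apply_symm_apply]
    · intro x hx
      rw [Finset.mem_filter] at hx ⊢
      refine ⟨Finset.mem_univ _, ?_⟩
      have h2 : glue (e x).1 y = x := by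
        rw [← hx.2]
        simp only [hglue, Prod.mk.eta, Equiv.symm_apply_apply]
      rw [h2]
      exact hx.1
    · intro u hu
      simp only [hglue, Equiv.apply_symm_apply]
    · intro x hx
      rw [Finset.mem_filter] at hx
      rw [← hx.2]
      simp only [hglue, Prod.mk.eta, Equiv.symm_apply_apply]
  rw [hsum]
  push_cast
  refine (Finset.sum_le_sum fun y _ => hone y).trans (le_of_eq ?_)
  have hc2 : Fintype.card {i // ¬ p i} = n - R.card := by
    rw [Fintype.card_subtype_compl, Fintype.card_fin, hcard]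
  have hRn : R.card ≤ n := by
    have := Finset.card_le_univ R
    rwa [Fintype.card_fin] at this
  rw [Finset.sum_const, Finset.card_univ, nsmul_eq_mul]
  have h3 : Fintype.card ({i // ¬ p i} → Fin K → Bool) = (2 ^ K) ^ (n - R.card) := by
    rw [Fintype.card_fun, Fintype.card_fun, hc2, Fintype.card_bool, Fintype.card_fin]
  rw [h3]
  push_cast
  have h4 : ((2 : ℝ) ^ K) ^ (n - R.card) * (2 ^ K) ^ R.card = 2 ^ (n * K) := by
    rw [← pow_add, Nat.sub_add_cancel hRn, ← pow_mul, mul_comm K n]
  rw [← h4]
  ring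

theorem all_players (n k j : ℕ) (hn : 1 ≤ n)
    (s : Fin n → (Fin n → Fin k → Bool) → Fin k)
    (hs : ∀ i, ∀ x y : Fin n → Fin k → Bool, (∀ l, l ≠ i → x l = y l) → s i x = s i y) :
    ((univ.filter fun x : Fin n → Fin k → Bool => ∀ i, x i (s i x) = true).card : ℝ) ≤
      bd n k j * 2 ^ (n * k) := by
  have hk : 1 ≤ k := by
    have := (s ⟨0, hn⟩ (fun _ _ => true)).2
    omega
  have h := general n k k j hk univ (fun _ _ => univ) s (fun _ _ _ => by simp)
    (fun _ _ _ _ _ => rfl) (fun i _ => hs i)
  simpa [bd] using h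

theorem result :
    (∀ (n K k j : ℕ), 1 ≤ k → j ≤ k → ∀ (R : Finset (Fin n))
      (H : Fin n → (Fin n → Fin K → Bool) → Finset (Fin K))
      (s : Fin n → (Fin n → Fin K → Bool) → Fin K),
      (∀ i ∈ R, ∀ x, (H i x).card = k) →
      (∀ i ∈ R, ∀ x y : Fin n → Fin K → Bool, (∀ l, l ∉ R → x l = y l) → H i x = H i y) →
      (∀ i ∈ R, ∀ x y : Fin n → Fin K → Bool, (∀ l, l ≠ i → x l = y l) → s i x = s i y) →
      ((univ.filter fun x : Fin n → Fin K → Bool =>
          ∀ i ∈ R, s i x ∈ H i x ∧ x i (s i x) = true).card : ℝ) ≤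
        (j / k + (1 - (∑ i ∈ range (j + 1), (k.choose i : ℝ)) / 2 ^ k) ^ R.card) *
          2 ^ (n * K)) ∧
    (∀ C β : ℝ, 0 < C → 0 < β → β ≤ 1 / 2 → (1 - 1 / C) * Real.log 2 < Real.binEntropy β →
      ∃ n₀ : ℕ, ∀ n k : ℕ, n₀ ≤ n → (k : ℝ) ≤ C * Real.logb 2 n →
        ∀ s : Fin n → (Fin n → Fin k → Bool) → Fin k,
        (∀ i, ∀ x y : Fin n → Fin k → Bool, (∀ l, l ≠ i → x l = y l) → s i x = s i y) →
        ((univ.filter fun x : Fin n → Fin k → Bool => ∀ i, x i (s i x) = true).card : ℝ) ≤
          β * 2 ^ (n * k)) ∧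
    (∀ A : ℕ, ∃ C : ℝ, ∀ n k : ℕ, 2 ≤ n → (2 : ℝ) ^ k ≤ n * Real.log n ^ A →
        ∀ s : Fin n → (Fin n → Fin k → Bool) → Fin k,
        (∀ i, ∀ x y : Fin n → Fin k → Bool, (∀ l, l ≠ i → x l = y l) → s i x = s i y) →
        ((univ.filter fun x : Fin n → Fin k → Bool => ∀ i, x i (s i x) = true).card : ℝ) ≤
          C / Real.log n * 2 ^ (n * k)) := by
  refine ⟨?_, ?_, ?_⟩
  · intro n K k j hk _ R H s hH hHo hs
    exact general n K k j hk R H s hH hHo hs
  · intro C β hC hβ hβ1 h
    obtain ⟨n₀, hn₀⟩ := bd_entropy hC hβ hβ1 h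
    refine ⟨max n₀ 1, ?_⟩
    intro n k hn hk s hs
    have hn1 : 1 ≤ n := le_trans (le_max_right _ _) hn
    have hk1 : 1 ≤ k := by
      have := (s ⟨0, hn1⟩ (fun _ _ => true)).2
      omega
    have h2 : 0 < Real.log 2 := Real.log_pos (by norm_num)
    obtain ⟨j, _, hjb⟩ := hn₀ n k (le_trans (le_max_left _ _) hn) hk1 (by
      have h3 : (k : ℝ) * Real.log 2 ≤ C * Real.logb 2 n * Real.log 2 :=
        mul_le_mul_of_nonneg_right hk h2.le
      rwa [mul_assoc, Real.logb, div_mul_cancel₀ _ h2.ne'] at h3)
    refine (all_players n k j hn1 s hs).trans ?_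
    exact mul_le_mul_of_nonneg_right hjb (by positivity)
  · intro A
    obtain ⟨C, hC⟩ := bd_log A
    refine ⟨C, ?_⟩
    intro n k hn hk s hs
    have hn1 : 1 ≤ n := by omega
    have hk1 : 1 ≤ k := by
      have := (s ⟨0, hn1⟩ (fun _ _ => true)).2
      omega
    obtain ⟨j, _, hjb⟩ := hC n k hn hk1 hk
    rcases min_le_iff.1 hjb with h1 | h1
    · have h2 : ((univ.filter fun x : Fin n → Fin k → Bool => ∀ i, x i (s i x) = true).card : ℝ) ≤
          1 * 2 ^ (n * k) := by
        have h3 := Finset.card_le_univ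
          (univ.filter fun x : Fin n → Fin k → Bool => ∀ i, x i (s i x) = true)
        rw [Fintype.card_fun, Fintype.card_fun, Fintype.card_bool, Fintype.card_fin,
          Fintype.card_fin, ← pow_mul, mul_comm k n] at h3
        rw [one_mul]
        exact_mod_cast h3
      exact h2.trans (mul_le_mul_of_nonneg_right h1 (by positivity))
    · refine (all_players n k j hn1 s hs).trans ?_
      exact mul_le_mul_of_nonneg_right h1 (by positivity)

end Pool.Agent.Results.MP_d91c53_co.ShortStacks
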