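import Pool.Agent.Lib_MP_d91c53_vb.Group

/-!
# Levine's hat game when players see only a signal of each other's stacks

`R` is a group of `m` of the `n` players. Every player of the group sees the stacks outside the
group, and of the stack of another player `j` of the group only the value of a function `g j` with
`r` values (`g j` may depend on the stacks outside the group). Then all players of the group name
black hats with probability at most `50 (1 + log (1 + r / log m)) / log m`.
-/

set_option autoImplicit false

namespace Pool.Agent.Results.MP_d91c53_co.VisibleBits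

open Finset Pool.Agent.VB

theorem result (n k r : ℕ) (hr : 0 < r) (R : Finset (Fin n)) (hR : 2 ≤ R.card)
    (s : Fin n → (Fin n → Fin k → Bool) → Fin k)
    (g : Fin n → (Fin n → Fin k → Bool) → Fin r)
    (hg : ∀ j ∈ R, ∀ x y : Fin n → Fin k → Bool,
      (∀ i, i ∉ R → x i = y i) → x j = y j → g j x = g j y)
    (hs : ∀ i ∈ R, ∀ x y : Fin n → Fin k → Bool,
      (∀ j, j ∉ R → x j = y j) → (∀ j ∈ R, j ≠ i → g j x = g j y) → s i x = s i y) :
    ((univ.filter fun x : Fin n → Fin k → Bool => ∀ i ∈ R, x i (s i x) = true).card : ℝ) ≤
      50 * (1 + Real.log (1 + r / Real.log R.card)) / Real.log R.card * 2 ^ (n * k) := by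
  classical
  set p : Fin n → Prop := fun i => i ∈ R with hp
  set e := Equiv.piEquivPiSubtypeProd p (fun _ => Fin k → Bool) with he
  set glue : ({i // p i} → Fin k → Bool) → ({i // ¬ p i} → Fin k → Bool) →
    Fin n → Fin k → Bool := fun u y => e.symm (u, y) with hglue
  have hin : ∀ u y (i : {i // p i}), glue u y i.1 = u i := by
    intro u y i
    simp only [hglue, he, Equiv.piEquivPiSubtypeProd_symm_apply]
    rw [dif_pos i.2]
  have hout : ∀ u y i (hi : ¬ p i), glue u y i = y ⟨i, hi⟩ := by
    intro u y i hi
    simp only [hglue, he, Equiv.piEquivPiSubtypeProd_symm_apply]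
    rw [dif_neg hi]
  have houte : ∀ u u' y i, i ∉ R → glue u y i = glue u' y i := by
    intro u u' y i hi
    rw [hout u y i hi, hout u' y i hi]
  have hcard : Fintype.card {i // p i} = R.card := Fintype.card_coe R
  set bd : ℝ := 50 * (1 + Real.log (1 + r / Real.log R.card)) / Real.log R.card with hbd
  set W := univ.filter fun x : Fin n → Fin k → Bool => ∀ i ∈ R, x i (s i x) = true with hW
  -- one position outside the group
  have hone : ∀ y : {i // ¬ p i} → Fin k → Bool,
      ((univ.filter fun u : {i // p i} → Fin k → Bool => glue u y ∈ W).card : ℝ) ≤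
        bd * (2 ^ k) ^ R.card := by
    intro y
    set g' : {i // p i} → (Fin k → Bool) → Fin r := fun j z => g j.1 (glue (fun _ => z) y)
      with hg'
    have hgg : ∀ u (j : {i // p i}), g j.1 (glue u y) = g' j (u j) := by
      intro u j
      refine hg j.1 j.2 _ _ (fun i hi => houte _ _ y i hi) ?_
      rw [hin, hin]
    have hfac : ∀ i : {i // p i}, ∃ L : ({j : {i // p i} // j ≠ i} → Fin r) → Fin k,
        ∀ u, s i.1 (glue u y) = L fun j => g' j.1 (u j.1) := by
      intro i
      have : Nonempty (Fin k) := ⟨s i.1 (glue (fun _ _ => true) y)⟩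
      have h1 : (fun u => s i.1 (glue u y)).FactorsThrough
          (fun (u : {i // p i} → Fin k → Bool) (j : {j : {i // p i} // j ≠ i}) =>
            g' j.1 (u j.1)) := by
        intro u u' h
        refine hs i.1 i.2 _ _ (fun j hj => houte _ _ y j hj) fun j hj hji => ?_
        have h2 := congrFun h ⟨⟨j, hj⟩, fun hc => hji (congrArg Subtype.val hc)⟩
        have h3 := hgg u ⟨j, hj⟩
        have h4 := hgg u' ⟨j, hj⟩
        simp only at h2 h3 h4
        rw [h3, h4, h2]
      obtain ⟨L, hL⟩ := (Function.factorsThrough_iff _).1 h1
      exact ⟨L, fun u => congrFun hL u⟩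
    choose L hL using hfac
    set ell : {i // p i} → ({i // p i} → Fin r) → Fin k := fun i c => L i fun j => c j.1
      with hell
    have hell' : ∀ i c a, ell i (Function.update c i a) = ell i c := by
      intro i c a
      simp only [hell]
      congr 1
      funext j
      rw [Function.update_of_ne j.2]
    have h5 := group_bound (k := k) (by rw [hcard]; exact hR) hr g' ell hell'
    rw [hcard] at h5
    refine le_trans (le_of_eq ?_) h5
    congr 2
    ext u
    simp only [Finset.mem_filter, Finset.mem_univ, true_and, hW]
    constructor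
    · intro h i
      have h6 := h i.1 i.2
      rw [hin, hL i u] at h6
      exact h6
    · intro h i hi
      have h6 := h ⟨i, hi⟩
      have h7 := hin u y ⟨i, hi⟩
      have h8 := hL ⟨i, hi⟩ u
      simp only at h7 h8
      rw [h7, h8]
      exact h6
  -- sum over the positions outside the group
  have hsum : W.card = ∑ y : {i // ¬ p i} → Fin k → Bool,
      (univ.filter fun u : {i // p i} → Fin k → Bool => glue u y ∈ W).card := by
    have h1 := Finset.card_eq_sum_card_fiberwise (s := W)
      (t := (univ : Finset ({i // ¬ p i} → Fin k → Bool))) (f := fun x => (e x).2)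
      (fun _ _ => Finset.mem_univ _)
    rw [h1]
    refine Finset.sum_congr rfl fun y _ => ?_
    symm
    refine Finset.card_bij' (fun u _ => glue u y) (fun x _ => (e x).1) ?_ ?_ ?_ ?_
    · intro u hu
      rw [Finset.mem_filter] at hu ⊢
      refine ⟨hu.2, ?_⟩
      simp only [hglue, Equiv.apply_symm_apply]
    · intro x hx
      rw [Finset.mem_filter] at hx ⊢
      refine ⟨Finset.mem_univ _, ?_⟩
      have h2 : glue (e x).1 y = x := by
        rw [← hx.2]
        simp only [hglue, Prod.mk.eta, Equiv.symm_apply_apply]
      rw [h2]
      exact hx.1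
    · intro u hu
      simp only [hglue, Equiv.apply_symm_apply]
    · intro x hx
      rw [Finset.mem_filter] at hx
      rw [← hx.2]
      simp only [hglue, Prod.mk.eta, Equiv.symm_apply_apply]
  rw [hsum]
  push_cast
  refine (Finset.sum_le_sum fun y _ => hone y).trans (le_of_eq ?_)
  have hc2 : Fintype.card {i // ¬ p i} = n - R.card := by
    rw [Fintype.card_subtype_compl, Fintype.card_fin, hcard]
  have hRn : R.card ≤ n := by
    have := Finset.card_le_univ R
    rwa [Fintype.card_fin] at this
  rw [Finset.sum_const, Finset.card_univ, nsmul_eq_mul]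
  have h3 : Fintype.card ({i // ¬ p i} → Fin k → Bool) = (2 ^ k) ^ (n - R.card) := by
    rw [Fintype.card_fun, Fintype.card_fun, hc2, Fintype.card_bool, Fintype.card_fin]
  rw [h3]
  push_cast
  have h4 : ((2 : ℝ) ^ k) ^ (n - R.card) * (2 ^ k) ^ R.card = 2 ^ (n * k) := by
    rw [← pow_add, Nat.sub_add_cancel hRn, ← pow_mul, mul_comm k n]
  rw [← h4]
  ring

end Pool.Agent.Results.MP_d91c53_co.VisibleBits
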